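import Pool.Agent.H31.EH.Targets
import Pool.Agent.H31.EST.RIP
import Pool.Agent.H60.LVP.TR

/-!
# Row TT2 of ehf_modules (MP_e21eee_nt): stars on the grid which contains most stars of their
`p`-line
-/

set_option autoImplicit false

open Finset MeasureTheory

namespace Pool.Agent.H39.EH

open Pool.Agent.H24.CL Pool.Agent.H24.LV Pool.Agent.H26.ES Pool.Agent.H31.EH

/-- the Chinese remainder theorem for sums -/
theorem crt_sum {D p : ℕ} (h : D.Coprime p) (hD : 0 < D) (hp : 0 < p) (F : ℕ → ℕ → ℝ) :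
    ∑ x ∈ range (D * p), F (x % D) (x % p) = ∑ y ∈ range D, ∑ t ∈ range p, F y t := by
  rw [← Finset.sum_product' (range D) (range p) F]
  refine Finset.sum_bij (fun x _ => (x % D, x % p)) ?_ ?_ ?_ ?_
  · intro x _
    exact Finset.mem_product.2 ⟨Finset.mem_range.2 (Nat.mod_lt _ hD),
      Finset.mem_range.2 (Nat.mod_lt _ hp)⟩
  · intro x hx x' hx' he
    have h1 : x % D = x' % D := congrArg Prod.fst he
    have h2 : x % p = x' % p := congrArg Prod.snd he
    have h3 : x ≡ x' [MOD D * p] := (Nat.modEq_and_modEq_iff_modEq_mul h).1 ⟨h1, h2⟩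
    exact Nat.ModEq.eq_of_lt_of_lt h3 (Finset.mem_range.1 hx) (Finset.mem_range.1 hx')
  · rintro ⟨y, t⟩ hyt
    obtain ⟨h1, h2⟩ := Finset.mem_product.1 hyt
    obtain ⟨z, hz1, hz2⟩ := Nat.chineseRemainder h y t
    refine ⟨z % (D * p), Finset.mem_range.2 (Nat.mod_lt _ (Nat.mul_pos hD hp)), ?_⟩
    have e1 : z % (D * p) % D = y := by
      rw [Nat.mod_mul_right_mod]
      exact (show z % D = y % D from hz1).trans (Nat.mod_eq_of_lt (Finset.mem_range.1 h1))
    have e2 : z % (D * p) % p = t := by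
      rw [Nat.mod_mul_left_mod]
      exact (show z % p = t % p from hz2).trans (Nat.mod_eq_of_lt (Finset.mem_range.1 h2))
    exact Prod.ext e1 e2
  · intro x _
    rfl

theorem ds_single (p : ℕ) : DS {p} = p := by
  unfold DS
  exact Finset.prod_singleton _ _

open Classical in
/-- the stars of other directions on the lines which cross a grid -/
theorem sum_od_le {k p : ℕ} (hXCO : T_XCO) (hCO : L_CO) {S : Finset ℕ} {V : Set (X k)}
    {Ge : ℕ → Set (X k)} {Gd : ℕ → ℕ → Set (X k)} {P m τ Ω : ℝ} (hpS : p ∉ S)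
    (hd : SDatP k (insert p S) V Ge Gd P m τ Ω) (hC : CntM (H k p k) (H k p 1) (Ge p) m)
    (hD : 0 < DS S) (hcop : (DS S).Coprime p) (b : X k) :
    ∑ t ∈ range p, od {p} S V Gd b t ≤ k * m := by
  have hpi : p ∈ insert p S := Finset.mem_insert_self _ _
  obtain ⟨hp, hkp, -, -⟩ := hd.pr p hpi
  have hD0 : (0 : ℝ) < DS S := by exact_mod_cast hD
  obtain ⟨B, hB⟩ : ∃ B : Finset ℕ, B = (range (p * DS S)).filter fun x => ∃ κ ∈ Kr k p (x % p),
    κ ∉ H k p 1 ∧ phi (DS S) (x % DS S) (b + κ) ∈ Gd p (x / DS S) := ⟨_, rfl⟩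
  have h1 : (B.card : ℝ) ≤ k * m * DS S := by
    refine hXCO k p (DS S) (Ge p) (Gd p) m (by have := hd.hk; omega) hp hkp hD hcop hd.hm hC
      (fun y => hd.sub p hpi y) b B ?_ ?_
    · rw [hB]
      exact Finset.filter_subset _ _
    · intro x hx
      rw [hB] at hx
      exact (Finset.mem_filter.1 hx).2
  have h2 : B.card = ∑ t ∈ range p, (B.filter fun x => x % p = t).card := by
    refine Finset.card_eq_sum_card_fiberwise ?_
    intro x _
    exact Finset.mem_coe.2 (Finset.mem_range.2 (Nat.mod_lt _ hp.pos))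
  have hun : ({p} : Finset ℕ) ∪ S = insert p S := (Finset.insert_eq p S).symm
  have h3 : ∀ t ∈ range p, od {p} S V Gd b t ≤
      ((B.filter fun x => x % p = t).card : ℝ) / DS S := by
    intro t ht
    have ht' := Finset.mem_range.1 ht
    unfold od
    rw [ds_single]
    refine div_le_div_of_nonneg_right ?_ hD0.le
    rw [Nat.cast_le]
    refine Finset.card_le_card_of_injOn (fun z => t + p * z) ?_ ?_
    · intro z hz
      have hz1 := Finset.mem_filter.1 (Finset.mem_coe.1 hz)
      obtain ⟨hz2, κ, hκ, hκ1, hst⟩ := hz1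
      have hz3 := Finset.mem_range.1 hz2
      have e1 : (t + p * z) % p = t := by
        rw [Nat.add_mul_mod_self_left, Nat.mod_eq_of_lt ht']
      rw [hun] at hst
      have hs := (Pool.Agent.H31.EST.starP_sub hCO hpS hp.one_lt.le hst).2
      refine Finset.mem_coe.2 (Finset.mem_filter.2 ⟨?_, e1⟩)
      rw [hB]
      refine Finset.mem_filter.2 ⟨Finset.mem_range.2 ?_, κ, ?_, hκ1, hs⟩
      · calc t + p * z < p + p * z := Nat.add_lt_add_right ht' _
          _ = p * (z + 1) := by ring
          _ ≤ p * DS S := Nat.mul_le_mul_left _ hz3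
      · change κ ∈ Kr k p ((t + p * z) % p)
        rw [e1]
        exact hκ
    · intro z _ z' _ he
      have he' : t + p * z = t + p * z' := he
      exact Nat.eq_of_mul_eq_mul_left hp.pos (Nat.add_left_cancel he')
  calc ∑ t ∈ range p, od {p} S V Gd b t
      ≤ ∑ t ∈ range p, ((B.filter fun x => x % p = t).card : ℝ) / DS S := Finset.sum_le_sum h3
    _ = (B.card : ℝ) / DS S := by
        rw [h2, ← Finset.sum_div]
        push_cast
        rfl
    _ ≤ k * m := by
        rw [div_le_iff₀ hD0]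
        exact h1

open Classical in
/-- the grids which contain most stars of their `p`-line -/
theorem major_le {k p : ℕ} (hCO : L_CO) (hAI : L_AI) (hMP : T_MP) {S : Finset ℕ} {V : Set (X k)}
    {Ge : ℕ → Set (X k)} {Gd : ℕ → ℕ → Set (X k)} {P m τ Ω kap : ℝ} (hpS : p ∉ S)
    (hd : SDatP k (insert p S) V Ge Gd P m τ Ω) (hkap : 0 < kap)
    (hD : 0 < DS S) (y : ℕ) (hy : y < DS S)
    (hA : MeasurableSet {b : X k | od S {p} V Gd b y < kap ∧ kap ≤ sd S {p} V Gd b y}) :
    volume.real {b : X k | od S {p} V Gd b y < kap ∧ kap ≤ sd S {p} V Gd b y} ≤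
      (DS S : ℝ) ^ k / (DS S : ℝ) ^ (KN k) * volume.real (Ge p) := by
  have hpi : p ∈ insert p S := Finset.mem_insert_self _ _
  obtain ⟨hp, -, -, -⟩ := hd.pr p hpi
  have hun : S ∪ {p} = insert p S := by rw [Finset.union_comm, ← Finset.insert_eq]
  have hker : ∀ κ ∈ Kr k (DS S) y, phi (DS S) y κ = 0 := fun κ hκ =>
    ((hCO.2.2.2.1 k (DS S) y hD).2 κ).1 hκ
  have hsym : ∀ κ, phi (DS S) y κ = 0 → κ ∈ Kr k (DS S) y := fun κ hκ =>
    ((hCO.2.2.2.1 k (DS S) y hD).2 κ).2 hκ
  obtain ⟨A, hAe⟩ : ∃ A : Set (X k), A = {b : X k | od S {p} V Gd b y < kap ∧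
    kap ≤ sd S {p} V Gd b y} := ⟨_, rfl⟩
  rw [← hAe] at hA ⊢
  have hmA : ∀ b, b ∈ A ↔ od S {p} V Gd b y < kap ∧ kap ≤ sd S {p} V Gd b y := by
    intro b; rw [hAe]; exact Iff.rfl
  obtain ⟨B, hBe⟩ : ∃ B : Set (X k), B = {b : X k | phi (DS S) y b ∈ Ge p} := ⟨_, rfl⟩
  have hB : MeasurableSet B := by
    rw [hBe]
    exact (hMP k (DS S) y hD).1.measurable (hd.mE p hpi)
  have hcard : (Kr k (DS S) y).card = DS S ^ KN k := (hCO.2.2.2.1 k (DS S) y hD).1
  have hne : (Kr k (DS S) y).Nonempty := by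
    rw [← Finset.card_pos, hcard]
    exact pow_pos hD _
  have h1 := Pool.Agent.H60.LVP.avg_le hAI (Kr k (DS S) y) hne A B hA hB ((DS S : ℝ) ^ k) ?_
  · rw [hcard] at h1
    push_cast at h1
    refine h1.trans (le_of_eq ?_)
    rw [hBe]
    congr 1
    exact (hMP k (DS S) y hD).2.2.measureReal_preimage (hd.mE p hpi).nullMeasurableSet
  · intro a
    rcases ((Kr k (DS S) y).filter fun κ => a + κ ∈ A).eq_empty_or_nonempty with h0 | ⟨κ0, h0⟩
    · rw [h0, Finset.card_empty, Nat.cast_zero]
      split_ifs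
      · positivity
      · exact le_refl _
    · obtain ⟨hκ0, ha0⟩ := Finset.mem_filter.1 h0
      have ha0' := (hmA _).1 ha0
      -- the line is good
      have haB : a ∈ B := by
        rw [hBe]
        change phi (DS S) y a ∈ Ge p
        have hs : 0 < sd S {p} V Gd (a + κ0) y := lt_of_lt_of_le hkap ha0'.2
        by_contra hcon
        have hz : ((range (DS {p})).filter fun z =>
            StarP (S ∪ {p}) V Gd (a + κ0) (y + DS S * z)) = ∅ := by
          rw [Finset.filter_eq_empty_iff]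
          intro z _ hst
          rw [hun] at hst
          have hs2 := (Pool.Agent.H31.EST.starP_sub hCO hpS hp.one_lt.le hst).2
          rw [Nat.add_mul_mod_self_left, Nat.mod_eq_of_lt hy, map_add, hker κ0 hκ0, add_zero]
            at hs2
          exact hcon (hd.sub p hpi _ hs2)
        unfold sd at hs
        rw [hz] at hs
        simp at hs
      rw [if_pos haB]
      have hcH : (HF k (DS S) 1).card = DS S ^ k := by
        have := (Pool.Agent.H60.LVP.hTO k (DS S) hD).2.2.1 1
        rwa [one_mul] at this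
      have hle : ((Kr k (DS S) y).filter fun κ => a + κ ∈ A).card ≤ DS S ^ k := by
        rw [← hcH]
        refine Finset.card_le_card_of_injOn (fun κ => κ - κ0) ?_ ?_
        · intro κ hκ
          obtain ⟨hκ1, ha1⟩ := Finset.mem_filter.1 (Finset.mem_coe.1 hκ)
          have ha1' := (hmA _).1 ha1
          change κ - κ0 ∈ HF k (DS S) 1
          rw [(Pool.Agent.H60.LVP.hTO k (DS S) hD).2.1 1 (κ - κ0)]
          by_contra hcon
          have hlt : sd S {p} V Gd (a + κ) y ≤ od S {p} V Gd (a + κ0) y := by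
            unfold sd od
            refine div_le_div_of_nonneg_right ?_ (Nat.cast_nonneg _)
            rw [Nat.cast_le]
            refine Finset.card_le_card ?_
            intro z hz
            obtain ⟨hz1, hz2⟩ := Finset.mem_filter.1 hz
            refine Finset.mem_filter.2 ⟨hz1, κ - κ0, ?_, hcon, ?_⟩
            · apply hsym
              rw [map_sub, hker κ hκ1, hker κ0 hκ0, sub_zero]
            · have e : a + κ0 + (κ - κ0) = a + κ := by abel
              rw [e]
              exact hz2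
          linarith [ha1'.2, ha0'.1]
        · intro κ _ κ' _ he
          exact sub_left_injective he
      exact_mod_cast hle

/-- the sum over the cells of the lines -/
theorem cells_le {k p : ℕ} {D : ℕ} (hcop : D.Coprime p) (hD : 0 < D) (hp : 0 < p) (c v : ℝ)
    (hc : 0 ≤ c) (M : ℕ → Set (X k)) (_hM : ∀ y, MeasurableSet (M y))
    (hMv : ∀ y < D, volume.real (M y) ≤ v) (A : ℕ → Set (X k)) (hA : ∀ x, A x ⊆ M (x % D))
    (g : ℕ → X k → ℝ) (hg : ∀ t, Measurable (g t)) (hg0 : ∀ t b, 0 ≤ g t b ∧ g t b ≤ 1)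
    (hgs : ∀ b, ∑ t ∈ range p, g t b ≤ c) :
    ∑ x ∈ range (D * p), ∫ b in A x, g (x % p) b ≤ D * (c * v) := by
  have hint : ∀ t (s : Set (X k)), IntegrableOn (g t) s volume := by
    intro t s
    refine Integrable.integrableOn ?_
    refine Integrable.of_bound (hg t).aestronglyMeasurable 1 (Filter.Eventually.of_forall ?_)
    intro b
    rw [Real.norm_eq_abs, abs_of_nonneg (hg0 t b).1]
    exact (hg0 t b).2
  have h1 : ∑ x ∈ range (D * p), ∫ b in A x, g (x % p) b ≤
      ∑ x ∈ range (D * p), ∫ b in M (x % D), g (x % p) b := by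
    refine Finset.sum_le_sum fun x _ => ?_
    exact setIntegral_mono_set (hint _ _) (Filter.Eventually.of_forall fun b => (hg0 _ b).1)
      (Filter.Eventually.of_forall fun b hb => hA x hb)
  refine h1.trans ?_
  rw [crt_sum hcop hD hp (fun y t => ∫ b in M y, g t b)]
  have h2 : ∀ y ∈ range D, ∑ t ∈ range p, ∫ b in M y, g t b ≤ c * v := by
    intro y hy
    rw [← integral_finsetSum _ (fun t _ => hint t (M y))]
    calc ∫ b in M y, ∑ t ∈ range p, g t b
        ≤ ∫ _ in M y, c := by
          refine integral_mono (integrable_finsetSum _ fun t _ => hint t (M y))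
            (integrable_const c) ?_
          intro b
          exact hgs b
      _ = volume.real (M y) * c := by
          rw [setIntegral_const, smul_eq_mul]
      _ ≤ c * v := by
          rw [mul_comm]
          exact mul_le_mul_of_nonneg_left (hMv y (Finset.mem_range.1 hy)) hc
  refine (Finset.sum_le_sum h2).trans ?_
  rw [Finset.sum_const, Finset.card_range, nsmul_eq_mul]

theorem pf_TT2 (hMP : T_MP) (hCO : L_CO) (hAI : L_AI) (_hCOL : T_COL) (hMEA : T_MEA)
    (hXCO : T_XCO) : T_TT2 := by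
  intro k p S V Ge Gd P m τ Ω kap hpS hd hC hkap
  have hun : S ∪ {p} = insert p S := by rw [Finset.union_comm, ← Finset.insert_eq]
  have hun' : ({p} : Finset ℕ) ∪ S = insert p S := (Finset.insert_eq p S).symm
  have hd' : SDatP k (insert p S) V Ge Gd P m τ Ω := by rw [← hun]; exact hd
  have hpi : p ∈ insert p S := Finset.mem_insert_self _ _
  obtain ⟨hp, -, hPp, -⟩ := hd'.pr p hpi
  have hS : ∀ q ∈ S, q.Prime := fun q hq => (hd'.pr q (Finset.mem_insert_of_mem hq)).1
  have hD : 0 < DS S := Pool.Agent.H84.LVP.DS_pos hS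
  have hcop : (DS S).Coprime p := by
    unfold DS
    refine Nat.Coprime.prod_left fun q hq => ?_
    refine (Nat.coprime_primes (hS q hq) hp).2 ?_
    rintro rfl
    exact hpS hq
  have hDS : DS (S ∪ {p}) = DS S * p := by
    rw [hun, Nat.mul_comm]
    unfold DS
    exact Finset.prod_insert hpS
  obtain ⟨-, -, -, -, -, -, hm1, hm2, -⟩ := hMEA k S {p} V Ge Gd P m τ Ω hd
  obtain ⟨-, -, -, -, -, -, hm3, -, -, -, hb3, -⟩ := hMEA k {p} S V Ge Gd P m τ Ω
    (by rw [hun']; exact hd')
  have hKk : k ≤ KN k := Pool.Agent.H60.LVP.KN_ge k (by have := hd.hk; omega)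
  have hM : ∀ y, MeasurableSet {b : X k | od S {p} V Gd b y < kap ∧ kap ≤ sd S {p} V Gd b y} :=
    fun y => (measurableSet_lt (hm1 y) measurable_const).inter
      (measurableSet_le measurable_const (hm2 y))
  have hm : (0 : ℝ) ≤ k * m := by
    have := hd.hm
    positivity
  have h1 := cells_le hcop hD hp.pos (k * m)
    ((DS S : ℝ) ^ k / (DS S : ℝ) ^ (KN k) * volume.real (Ge p)) hm
    (fun y => {b : X k | od S {p} V Gd b y < kap ∧ kap ≤ sd S {p} V Gd b y}) hM
    (fun y hy => major_le hCO hAI hMP hpS hd' hkap hD y hy (hM y))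
    (fun x => {b : X k | StarP (S ∪ {p}) V Gd b x ∧
        od S {p} V Gd b (x % DS S) < kap ∧ kap ≤ sd S {p} V Gd b (x % DS S)})
    (fun x b hb => hb.2) (fun t b => od {p} S V Gd b t) hm3 (fun t b => hb3 b t)
    (fun b => sum_od_le hXCO hCO hpS hd' hC hD hcop b)
  rw [hDS, ds_single]
  have hp0 : (0 : ℝ) < p := by exact_mod_cast hp.pos
  have hD0 : (0 : ℝ) < DS S := by exact_mod_cast hD
  have hP0 : (0 : ℝ) < P := lt_of_lt_of_le one_pos hd.hP
  have hms := hd'.ms p hpi
  have hpow : (DS S : ℝ) ^ (KN k) = (DS S : ℝ) ^ (KN k - k) * (DS S : ℝ) ^ k := by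
    rw [← pow_add]
    congr 1
    omega
  push_cast
  calc ((DS S : ℝ) * p) ^ (KN k - k) * (1 / ((DS S : ℝ) * p) * ∑ x ∈ range (DS S * p),
        ∫ b in {b : X k | StarP (S ∪ {p}) V Gd b x ∧
          od S {p} V Gd b (x % DS S) < kap ∧ kap ≤ sd S {p} V Gd b (x % DS S)},
            od {p} S V Gd b (x % p))
      ≤ ((DS S : ℝ) * p) ^ (KN k - k) * (1 / ((DS S : ℝ) * p) * (DS S * (k * m *
          ((DS S : ℝ) ^ k / (DS S : ℝ) ^ (KN k) * volume.real (Ge p))))) := by
        apply mul_le_mul_of_nonneg_left _ (by positivity)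
        exact mul_le_mul_of_nonneg_left h1 (by positivity)
    _ = k * m / p * ((p : ℝ) ^ (KN k - k) * volume.real (Ge p)) := by
        rw [hpow, mul_pow]
        field_simp
    _ ≤ k * m / p * Ω := mul_le_mul_of_nonneg_left hms (by positivity)
    _ ≤ k * m / P * Ω := by
        apply mul_le_mul_of_nonneg_right _ hd.hΩ
        exact div_le_div_of_nonneg_left hm hP0 hPp

end Pool.Agent.H39.EH
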